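import Pool.Agent.TH720.LB.Down
import Pool.Agent.H914R2.GBasic

/-!
# The product with a curve of positive genus
-/

open CategoryTheory AlgebraicGeometry Finset

universe u v

namespace Pool.Agent.TH720.LB

open Pool.Agent.H914 Pool.Agent.W534 Pool.Agent.W537 VarClass Obj WeilCohomology

variable {k : Type u} [Field k] {𝒱 : VarClass k} {ops : CycleOps 𝒱}
  {W : WeilCohomology.{u, v} ops} {X C : 𝒱.Obj} {D : X.Cycles} {h : C.Cycles}

/-- `C` is one-dimensional with `H^1(C) ≠ 0`, and the divisor `h` has degree `1`. -/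
structure IsCurveLike (W : WeilCohomology.{u, v} ops) (C : 𝒱.Obj) (h : C.Cycles) : Prop where
  dim : C.dim = 1
  div : C.IsCyc 1 h
  deg : W.tr C (W.cl C h) = 1
  odd : W.gr C 1 ≠ ⊥

section curve

variable (hC : IsCurveLike W C h)
include hC

lemma curve_gr2 {y : W.H C} (hy : y ∈ W.gr C 2) : W.tr C y • W.cl C h = y := by
  apply W.tr_ext
  intro c
  refine gr_induction (W.isInternal C) (p := fun c =>
    W.tr C (W.tr C y • W.cl C h * c) = W.tr C (y * c)) ?_ ?_ c
  · intro i a ha
    by_cases hi : i = 0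
    · subst hi
      rw [W.gr_zero, Submodule.mem_span_singleton] at ha
      obtain ⟨r, rfl⟩ := ha
      rw [mul_smul_comm, mul_smul_comm, mul_one, mul_one, map_smul, map_smul, map_smul, hC.deg,
        smul_eq_mul, smul_eq_mul, smul_eq_mul, mul_one]
    · rw [W.tr_eq_zero (W.mul_mem (Submodule.smul_mem _ _ (cl_div hC.div)) ha)
        (by rw [hC.dim]; omega), W.tr_eq_zero (W.mul_mem hy ha) (by rw [hC.dim]; omega)]
  · intro a b ha hb
    rw [mul_add, mul_add, map_add, map_add, ha, hb]

/-- the projector on `H^1(C)` -/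
lemma curve_proj_eq : proj (W.isInternal C) 1 =
    LinearMap.id - W.corr (W.cl _ (ops.pull (fst C C) h)) -
      W.corr (W.cl _ (ops.pull (snd C C) h)) := by
  have ht : W.cl C h ∈ W.gr C (2 * 1) := cl_div hC.div
  apply gr_ext (W.isInternal C)
  intro i y hy
  have e1 : W.corr (W.cl _ (ops.pull (fst C C) h)) y = W.tr C (W.cl C h * y) • (1 : W.H C) := by
    rw [corr_apply, W.cl_pull, ← map_mul (W.map (fst C C)), push_snd']
  have e2 : W.corr (W.cl _ (ops.pull (snd C C) h)) y = W.tr C y • W.cl C h := by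
    rw [corr_apply, W.cl_pull, W.even_comm (W.map_mem _ ht), push_snd]
  rw [LinearMap.sub_apply, LinearMap.sub_apply, e1, e2, LinearMap.id_apply]
  rcases Nat.lt_or_ge 2 i with hi | hi
  · rw [W.gr_eq_bot C i (by rw [hC.dim]; omega)] at hy
    rw [(Submodule.mem_bot _).1 hy]
    simp
  · interval_cases i
    · rw [proj_ne _ hy (by omega)]
      rw [W.tr_eq_zero hy (by rw [hC.dim]; omega)]
      rw [W.gr_zero, Submodule.mem_span_singleton] at hy
      obtain ⟨r, rfl⟩ := hy
      rw [mul_smul_comm, mul_one, map_smul, hC.deg, smul_eq_mul, mul_one, zero_smul, sub_zero,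
        sub_self]
    · rw [proj_same _ hy, W.tr_eq_zero hy (by rw [hC.dim]; omega),
        W.tr_eq_zero (W.mul_mem ht hy) (by rw [hC.dim]; omega)]
      simp
    · rw [proj_ne _ hy (by omega), W.tr_eq_zero (W.mul_mem ht hy) (by rw [hC.dim]; omega),
        curve_gr2 hC hy]
      simp

lemma curve_exists : ∃ z, (C.prod C).IsCyc 1 z ∧ W.corr (W.cl _ z) = proj (W.isInternal C) 1 := by
  have hq : QOp W C C 0 (proj (W.isInternal C) 1) := by
    rw [curve_proj_eq hC]
    exact qop_sub (qop_sub qop_id (QOp.gen (p := 1) (by rw [hC.dim]; rfl)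
      (ops.pull_mem _ hC.div))) (QOp.gen (p := 1) (by rw [hC.dim]; rfl) (ops.pull_mem _ hC.div))
  exact hq.exists_cyc (p := 1) (by rw [hC.dim]; rfl)

/-- The classes in `H^1(C) ⊗ H^1(C)`. -/
noncomputable def oddSpan (W : WeilCohomology.{u, v} ops) (C : 𝒱.Obj) : Submodule W.K (W.H (C.prod C)) :=
  Submodule.span W.K {d | ∃ b ∈ W.gr C 1, ∃ c ∈ W.gr C 1,
    d = W.map (fst C C) b * W.map (snd C C) c}

omit hC in
lemma curve_corr_tmul {i j l : ℕ} {a b y : W.H C} (_ : a ∈ W.gr C i) (hb : b ∈ W.gr C j)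
    (hy : y ∈ W.gr C l) : W.corr (W.map (fst C C) a * W.map (snd C C) b) y =
      ((-1 : W.K) ^ (j * l) * W.tr C (a * y)) • b := by
  rw [corr_apply, mul_assoc, W.comm (W.map_mem (snd C C) hb) (W.map_mem (fst C C) hy),
    mul_smul_comm, ← mul_assoc, ← map_mul (W.map (fst C C)), map_smul, push_snd, smul_smul]

lemma curve_span (c : W.H (C.prod C)) : ∃ c' ∈ oddSpan W C,
    W.corr c' = proj (W.isInternal C) 1 ∘ₗ W.corr c ∘ₗ proj (W.isInternal C) 1 := by
  refine W.kunneth_induction (p := fun c => ∃ c' ∈ oddSpan W C,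
    W.corr c' = proj (W.isInternal C) 1 ∘ₗ W.corr c ∘ₗ proj (W.isInternal C) 1) ?_ ?_ c
  · rintro a b ⟨a', ha', ha⟩ ⟨b', hb', hb⟩
    refine ⟨a' + b', Submodule.add_mem _ ha' hb', ?_⟩
    rw [corr_add, corr_add, ha, hb, LinearMap.add_comp, LinearMap.comp_add]
  · intro i j a ha b hb
    by_cases hij : i = 1 ∧ j = 1
    · obtain ⟨rfl, rfl⟩ := hij
      refine ⟨_, Submodule.subset_span ⟨a, ha, b, hb, rfl⟩, ?_⟩
      apply gr_ext (W.isInternal C)
      intro l y hy
      rw [LinearMap.comp_apply, LinearMap.comp_apply]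
      by_cases hl : l = 1
      · subst hl
        rw [proj_same _ hy, curve_corr_tmul ha hb hy, map_smul, proj_same _ hb]
      · rw [proj_ne _ hy hl, map_zero, map_zero, curve_corr_tmul ha hb hy,
          W.tr_eq_zero (W.mul_mem ha hy) (by rw [hC.dim]; omega), mul_zero, zero_smul]
    · refine ⟨0, Submodule.zero_mem _, ?_⟩
      rw [corr_zero]
      apply gr_ext (W.isInternal C)
      intro l y hy
      rw [LinearMap.comp_apply, LinearMap.comp_apply, LinearMap.zero_apply]
      by_cases hl : l = 1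
      · subst hl
        rw [proj_same _ hy, curve_corr_tmul ha hb hy, map_smul]
        by_cases hi : i = 1
        · rw [proj_ne _ hb (by tauto), smul_zero]
        · rw [W.tr_eq_zero (W.mul_mem ha hy) (by rw [hC.dim]; omega), mul_zero, zero_smul]
      · rw [proj_ne _ hy hl, map_zero, map_zero]

/-- There is an algebraic class in `H^1(C) ⊗ H^1(C)` with non-zero degree on the diagonal. -/
lemma curve_delta : ∃ z, (C.prod C).IsCyc 1 z ∧ W.cl _ z ∈ oddSpan W C ∧
    W.tr C (W.map (diag C) (W.cl _ z)) ≠ 0 := by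
  obtain ⟨z, hz, hzp⟩ := curve_exists hC
  refine ⟨z, hz, ?_, ?_⟩
  · obtain ⟨c', hc', h1⟩ := curve_span hC (W.cl _ z)
    have h2 : W.corr c' = W.corr (W.cl _ z) := by
      rw [h1, hzp]
      apply gr_ext (W.isInternal C)
      intro l y hy
      rw [LinearMap.comp_apply, LinearMap.comp_apply]
      by_cases hl : l = 1
      · subst hl
        rw [proj_same _ hy, proj_same _ hy, proj_same _ hy]
      · rw [proj_ne _ hy hl, map_zero, map_zero]
    have h3 : W.corr (c' + (-1 : W.K) • W.cl _ z) = 0 := by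
      rw [corr_add, corr_smul, h2]
      module
    have h4 := corr_inj h3
    have h5 : W.cl _ z = c' := by
      have : c' - W.cl _ z = 0 := by
        rw [← h4]
        module
      exact (sub_eq_zero.1 this).symm
    rw [h5]
    exact hc'
  · rw [← trace_par_corr, hzp]
    have h1 : par (W.isInternal C) * proj (W.isInternal C) 1 =
        scal (W.isInternal C) (fun i => if i = 1 then -1 else 0) := by
      apply gr_ext (W.isInternal C)
      intro l y hy
      rw [Module.End.mul_apply, scal_apply _ _ hy]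
      by_cases hl : l = 1
      · subst hl
        rw [proj_same _ hy, par, scal_apply _ _ hy]
        simp
      · rw [proj_ne _ hy hl, map_zero, if_neg hl, zero_smul]
    rw [h1, trace_scal (W.isInternal C) (N := 3) (fun i hi => W.gr_eq_bot C i (by
      rw [hC.dim]; omega))]
    simp only [Finset.sum_range_succ, Finset.sum_range_zero]
    simp only [zero_ne_one, if_false, zero_mul, zero_add, if_true, OfNat.ofNat_ne_one,
      add_zero, neg_mul, one_mul, ne_eq, neg_eq_zero, Nat.cast_eq_zero]
    intro h0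
    exact hC.odd (Submodule.finrank_eq_zero.1 h0)

/-- the map to the two curves -/
noncomputable def kap (X C : 𝒱.Obj) : (X.prod C).prod (X.prod C) ⟶ C.prod C :=
  Obj.lift (fst _ _ ≫ snd X C) (snd _ _ ≫ snd X C)

/-- the map to the two other factors -/
noncomputable def qua (X C : 𝒱.Obj) : (X.prod C).prod (X.prod C) ⟶ X.prod X :=
  Obj.lift (fst _ _ ≫ fst X C) (snd _ _ ≫ fst X C)

/-- multiplication with the class of the sum of the divisors on `H(X) ⊗ H^1(C)` -/
lemma curve_mul (hD : X.IsCyc 1 D) {b : W.H C} (hb : b ∈ W.gr C 1) (w : ℕ) (a : W.H X) :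
    W.cl _ (sumDiv ops D h) ^ w * (W.map (snd X C) b * W.map (fst X C) a) =
      W.map (snd X C) b * W.map (fst X C) (W.cl X D ^ w * a) := by
  have h0 : W.cl C h * b = 0 := by
    have := W.mul_mem (cl_div hC.div) hb
    rw [W.gr_eq_bot C _ (by rw [hC.dim]; omega)] at this
    exact (Submodule.mem_bot _).1 this
  have h1 : ∀ x : W.H X, W.cl _ (sumDiv ops D h) * (W.map (snd X C) b * W.map (fst X C) x) =
      W.map (snd X C) b * W.map (fst X C) (W.cl X D * x) := by
    intro x
    rw [sumDiv, map_add, W.cl_pull, W.cl_pull, add_mul, ← mul_assoc, ← mul_assoc,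
      ← map_mul (W.map (snd X C)), h0, map_zero, zero_mul, add_zero,
      W.even_comm (W.map_mem (fst X C) (W.cl_mem hD)), mul_assoc, ← map_mul (W.map (fst X C))]
  induction w with
  | zero => rw [pow_zero, pow_zero, one_mul, one_mul]
  | succ w ih =>
    rw [pow_succ', mul_assoc, ih, h1, ← mul_assoc (W.cl X D), ← pow_succ']

/-- the basic computation -/
lemma curve_push (hD : X.IsCyc 1 D) {i w : ℕ} {z : ((X.prod C).prod (X.prod C)).Cycles}
    (hz : ∀ y ∈ W.gr (X.prod C) (i + 1), W.corr (W.cl _ z) (W.cl _ (sumDiv ops D h) ^ w * y) = y)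
    {a : W.H X} (ha : a ∈ W.gr X i) {d : W.H (C.prod C)} (hd : d ∈ oddSpan W C) :
    W.push (snd (X.prod C) (X.prod C) ≫ fst X C) (W.cl _ z * W.map (kap X C) d *
      W.map (fst (X.prod C) (X.prod C) ≫ fst X C) (W.cl X D ^ w * a)) =
        W.tr C (W.map (diag C) d) • a := by
  induction hd using Submodule.span_induction with
  | zero => simp
  | add x y _ _ hx hy =>
    rw [map_add, mul_add, add_mul, map_add, hx, hy, map_add, map_add, add_smul]
  | smul r x _ hx =>
    rw [map_smul, mul_smul_comm, smul_mul_assoc, map_smul, hx, map_smul, map_smul, smul_smul,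
      smul_eq_mul]
  | mem x hx =>
    obtain ⟨b, hb, c, hc, rfl⟩ := hx
    have hξw : W.cl X D ^ w * a ∈ W.gr X (2 * w + i) :=
      W.mul_mem (pow_mem' (cl_div hD) w) ha
    have e1 : W.map (kap X C) (W.map (fst C C) b * W.map (snd C C) c) =
        W.map (fst (X.prod C) (X.prod C)) (W.map (snd X C) b) *
          W.map (snd (X.prod C) (X.prod C)) (W.map (snd X C) c) := by
      rw [map_mul (W.map (kap X C)), ← W.map_comp, ← W.map_comp, kap, Obj.lift_fst, Obj.lift_snd,
        W.map_comp, W.map_comp]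
    have e2 : W.map (diag C) (W.map (fst C C) b * W.map (snd C C) c) = b * c := by
      have k1 : diag C ≫ snd C C = 𝟙 C := Obj.lift_snd _ _
      have k2 : diag C ≫ fst C C = 𝟙 C := Obj.lift_fst _ _
      rw [map_mul (W.map (diag C)), ← W.map_comp, ← W.map_comp, k1, k2, W.map_id, W.map_id]
    have hm : W.map (snd X C) b * W.map (fst X C) a ∈ W.gr (X.prod C) (i + 1) := by
      have := W.mul_mem (W.map_mem (snd X C) hb) (W.map_mem (fst X C) ha)
      rwa [add_comm] at this
    -- the push-forward to the second factor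
    have e3 : W.push (snd (X.prod C) (X.prod C)) (W.cl _ z *
        (W.map (fst (X.prod C) (X.prod C)) (W.map (snd X C) b) *
          W.map (snd (X.prod C) (X.prod C)) (W.map (snd X C) c)) *
        W.map (fst (X.prod C) (X.prod C)) (W.map (fst X C) (W.cl X D ^ w * a))) =
        (-1 : W.K) ^ i • (W.map (snd X C) b * W.map (fst X C) a * W.map (snd X C) c) := by
      have k1 : W.cl _ z *
          (W.map (fst (X.prod C) (X.prod C)) (W.map (snd X C) b) *
            W.map (snd (X.prod C) (X.prod C)) (W.map (snd X C) c)) *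
          W.map (fst (X.prod C) (X.prod C)) (W.map (fst X C) (W.cl X D ^ w * a)) =
          (-1 : W.K) ^ i • ((W.cl _ z * W.map (fst (X.prod C) (X.prod C))
            (W.cl _ (sumDiv ops D h) ^ w * (W.map (snd X C) b * W.map (fst X C) a))) *
              W.map (snd (X.prod C) (X.prod C)) (W.map (snd X C) c)) := by
        rw [curve_mul hC hD hb, mul_assoc (W.cl _ z), mul_assoc
          (W.map (fst (X.prod C) (X.prod C)) (W.map (snd X C) b)),
          W.comm (W.map_mem (snd (X.prod C) (X.prod C)) (W.map_mem (snd X C) hc))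
            (W.map_mem (fst (X.prod C) (X.prod C)) (W.map_mem (fst X C) hξw)),
          map_mul (W.map (fst (X.prod C) (X.prod C)))]
        have hs : (-1 : W.K) ^ (1 * (2 * w + i)) = (-1) ^ i := by
          rw [one_mul, pow_add, pow_mul]; simp
        rw [hs, mul_smul_comm, mul_smul_comm]
        simp only [mul_assoc]
      rw [k1, map_smul, W.push_mul, ← corr_apply, hz _ hm]
    rw [e1, e2, W.map_comp, W.push_comp, e3, map_smul]
    have e4 : W.map (snd X C) b * W.map (fst X C) a * W.map (snd X C) c =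
        (-1 : W.K) ^ i • (W.map (snd X C) (b * c) * W.map (fst X C) a) := by
      rw [mul_assoc, W.comm (W.map_mem (fst X C) ha) (W.map_mem (snd X C) hc), mul_one,
        mul_smul_comm, ← mul_assoc, ← map_mul (W.map (snd X C))]
    have hbc0 : b * c ∈ W.gr C (1 + 1) := W.mul_mem hb hc
    have hbc : b * c ∈ W.gr C (2 * 1) := hbc0
    rw [e4, map_smul, push_fst_mul hbc, smul_smul, smul_smul, ← pow_add, ← two_mul, pow_mul]
    simp

/-- **Statement (a) for `X × C` in degree `i + 1` implies statement (a) for `X` in degree `i`.** -/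
theorem curve_A (hD : X.IsCyc 1 D) (hHL : HardLefschetz W X D) {i : ℕ} (hi : i ≤ X.dim)
    (hA : StatementA W (X.prod C) (sumDiv ops D h) (i + 1)) : StatementA W X D i := by
  have hdim : (X.prod C).dim = X.dim + 1 := by rw [dim_prod X C, hC.dim]
  obtain ⟨z, hz, h1, -⟩ := hA
  have h1' : ∀ y ∈ W.gr (X.prod C) (i + 1),
      W.corr (W.cl _ z) (W.cl _ (sumDiv ops D h) ^ (X.dim - i) * y) = y := by
    intro y hy
    have := h1 y hy
    rw [show X.dim - i = (X.prod C).dim - (i + 1) by omega]
    exact this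
  obtain ⟨δ, hδ, hδ1, hδ2⟩ := curve_delta hC
  set r : ℚ := C.V.degCycle (ops.pull (diag C) δ) with hr
  have hrt : W.tr C (W.map (diag C) (W.cl _ δ)) = (r : W.K) := by
    rw [← W.cl_pull]
    exact W.tr_cl (by rw [hC.dim]; exact ops.pull_mem _ hδ)
  rw [hrt] at hδ2
  -- the cycle on `X × X`
  have hT : (X.prod X).IsCyc i (ops.push (qua X C) (ops.mul z (ops.pull (kap X C) δ))) := by
    refine ops.push_mem _ (ops.mul_mem hz (ops.pull_mem _ hδ)) ?_
    simp only [dim_prod, hC.dim]
    omega
  have hTq := (QOp.gen (W := W) (d := -((X.dim - i : ℕ) : ℤ)) (by omega) hT).smul r⁻¹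
  have := statementA_of_left hHL (m := X.dim - i) (by omega) hTq (by
    intro a ha
    rw [show X.dim - (X.dim - i) = i by omega] at ha
    have k1 : W.corr (W.cl _ (ops.push (qua X C) (ops.mul z (ops.pull (kap X C) δ))))
        (W.cl X D ^ (X.dim - i) * a) = W.tr C (W.map (diag C) (W.cl _ δ)) • a := by
      have e1 : qua X C ≫ snd X X = snd _ _ ≫ fst X C := Obj.lift_snd _ _
      have e2 : qua X C ≫ fst X X = fst _ _ ≫ fst X C := Obj.lift_fst _ _
      rw [corr_apply, W.cl_push, W.cl_mul, W.cl_pull, ← W.push_mul, ← W.push_comp, ← W.map_comp,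
        e1, e2]
      exact curve_push hC hD h1' ha hδ1
    rw [LinearMap.smul_apply, k1, hrt, smul_smul]
    have h2 : ((r⁻¹ : ℚ) : W.K) * (r : W.K) = 1 := by
      rw [Rat.cast_inv, inv_mul_cancel₀ hδ2]
    rw [h2, one_smul])
  rwa [show X.dim - (X.dim - i) = i by omega] at this

end curve

end Pool.Agent.TH720.LB
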