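import Pool.Agent.TH720.LB.Curve

/-!
# The statements
-/

open CategoryTheory AlgebraicGeometry Finset

universe u v

namespace Pool.Agent.TH720.LB

open Pool.Agent.H914 Pool.Agent.W534 Pool.Agent.W537 VarClass Obj WeilCohomology

section Alg

variable {K : Type*} [Field K] {A : Type*} [Ring A] [Algebra K A]

/-- `T` kills the elements of `gr i` which are killed by `M`, and `T (L b) = b` for `b` of
degree `i - 2`. -/
def SplitsOn (gr : ℕ → Submodule K A) (i : ℕ) (L M T : A →ₗ[K] A) : Prop :=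
  (∀ a ∈ gr i, M a = 0 → T a = 0) ∧ ∀ j, j + 2 = i → ∀ b ∈ gr j, T (L b) = b

/-- The powers of `t` span `A`, and `tr (t ^ d) = 1`. -/
def SpannedByPowers (tr : A →ₗ[K] K) (d : ℕ) (t : A) : Prop :=
  tr (t ^ d) = 1 ∧ ∀ a, a ∈ Submodule.span K (Set.range fun j : ℕ => t ^ j)

/-- `tr t = 1`, and the subspace `U` is not zero. -/
def UnitAndNonzero (tr : A →ₗ[K] K) (t : A) (U : Submodule K A) : Prop :=
  tr t = 1 ∧ U ≠ ⊥

end Alg

variable {k : Type u} [Field k] {𝒱 : VarClass k} {ops : CycleOps 𝒱}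

/-- Statement (b) in degree `i`: some algebraic cycle of codimension `n - 1` on `X × X` kills the
primitive classes `a` in `H^i(X)`, `ξ ^ (n - i + 1) a = 0`, and sends `ξ b` to `b` for `b` in
`H^(i - 2)(X)`; here `n = dim X`, and `ξ` is the class of `D`. -/
def SplitsPrimitive (W : WeilCohomology.{u, v} ops) (X : 𝒱.Obj) (D : X.Cycles) (i : ℕ) : Prop :=
  ∃ z, (X.prod X).IsCyc (X.dim - 1) z ∧
    SplitsOn (W.gr X) i (lefPow W X D 1) (lefPow W X D (X.dim - i + 1)) (cycOp W X z)

lemma splitsPrimitive_iff {W : WeilCohomology.{u, v} ops} {X : 𝒱.Obj} {D : X.Cycles} {i : ℕ} :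
    SplitsPrimitive W X D i ↔ StatementB W X D i := by
  refine exists_congr fun z => and_congr_right fun _ => ?_
  unfold SplitsOn lefPow
  rw [pow_one]
  exact Iff.rfl

/-- `P` with the divisor `h` looks like a projective space with a hyperplane: the powers of the
class of `h` span the cohomology, and `h ^ dim P` has degree `1`. -/
structure ProjLike (W : WeilCohomology.{u, v} ops) (P : 𝒱.Obj) (h : P.Cycles) : Prop where
  div : P.IsCyc 1 h
  pow : SpannedByPowers (W.tr P) P.dim (W.cl P h)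

lemma ProjLike.to {W : WeilCohomology.{u, v} ops} {P : 𝒱.Obj} {h : P.Cycles}
    (hP : ProjLike W P h) : IsProjLike W P h := ⟨hP.div, hP.pow.1, hP.pow.2⟩

/-- `C` with the divisor `c` looks like a curve of positive genus with a divisor of degree `1`:
`dim C = 1` and `H^1(C) ≠ 0`. -/
structure CurveLike (W : WeilCohomology.{u, v} ops) (C : 𝒱.Obj) (c : C.Cycles) : Prop where
  dim : C.dim = 1
  div : C.IsCyc 1 c
  odd : UnitAndNonzero (W.tr C) (W.cl C c) (W.gr C 1)

lemma CurveLike.to {W : WeilCohomology.{u, v} ops} {C : 𝒱.Obj} {c : C.Cycles}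
    (hC : CurveLike W C c) : IsCurveLike W C c := ⟨hC.dim, hC.div, hC.odd.1, hC.odd.2⟩

/-- Statement (a) in all degrees up to the dimension. -/
def FullA (W : WeilCohomology.{u, v} ops) (X : 𝒱.Obj) (D : X.Cycles) : Prop :=
  ∀ i ≤ X.dim, StatementA W X D i

/-- Statement (b) in all degrees up to the dimension. -/
def FullB (W : WeilCohomology.{u, v} ops) (X : 𝒱.Obj) (D : X.Cycles) : Prop :=
  ∀ i ≤ X.dim, SplitsPrimitive W X D i

/-- Statement (a) in the degree below the middle. -/
def BelowA (W : WeilCohomology.{u, v} ops) (X : 𝒱.Obj) (D : X.Cycles) : Prop :=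
  StatementA W X D (X.dim - 1)

/-- Statement (b) in the middle degree. -/
def MidB (W : WeilCohomology.{u, v} ops) (X : 𝒱.Obj) (D : X.Cycles) : Prop :=
  SplitsPrimitive W X D X.dim

/-- The equivalences for one variety `X` and its products with the `P m`. -/
def OneVariety (W : WeilCohomology.{u, v} ops) (P : ℕ → 𝒱.Obj) (h : ∀ m, (P m).Cycles)
    (X : 𝒱.Obj) (D : X.Cycles) : Prop :=
  List.TFAE [
    FullA W X D,
    FullB W X D ∧ MidB W (X.prod (P 1)) (sumDiv ops D (h 1)),
    ∀ m < X.dim, BelowA W (X.prod (P m)) (sumDiv ops D (h m)),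
    ∀ m ≤ X.dim, MidB W (X.prod (P m)) (sumDiv ops D (h m))]

/-- `S` holds for all pairs of the class `Pol` whose dimension satisfies `q`. -/
def ForAll (Pol : ∀ X : 𝒱.Obj, X.Cycles → Prop) (q : ℕ → Prop)
    (S : ∀ X : 𝒱.Obj, X.Cycles → Prop) : Prop :=
  ∀ (X : 𝒱.Obj) (D : X.Cycles), Pol X D → q X.dim → S X D

/-- The equivalences for all varieties of a class together. -/
def AllVarieties (W : WeilCohomology.{u, v} ops) (Pol : ∀ X : 𝒱.Obj, X.Cycles → Prop) : Prop :=
  List.TFAE [
    ForAll Pol (fun _ => True) (FullA W),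
    ForAll Pol (fun _ => True) (FullB W),
    ForAll Pol Odd (BelowA W),
    ForAll Pol (fun n => Even n ∧ 0 < n) (BelowA W),
    ForAll Pol Even (MidB W),
    ForAll Pol Odd (MidB W)]

/-- The `P m` look like the projective spaces with a hyperplane, `C` like a curve of positive genus
with a divisor of degree one, and `Pol` is a class of pairs of a variety and a divisor with hard
Lefschetz (for example the ample ones) which is closed under the products with them. -/
structure Setting (W : WeilCohomology.{u, v} ops) (P : ℕ → 𝒱.Obj) (h : ∀ m, (P m).Cycles)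
    (C : 𝒱.Obj) (c : C.Cycles) (Pol : ∀ X : 𝒱.Obj, X.Cycles → Prop) : Prop where
  dimP : ∀ m, (P m).dim = m
  proj : ∀ m, ProjLike W (P m) (h m)
  curve : CurveLike W C c
  div : ∀ (X : 𝒱.Obj) (D : X.Cycles), Pol X D → X.IsCyc 1 D
  hard : ∀ (X : 𝒱.Obj) (D : X.Cycles), Pol X D → HardLefschetz W X D
  prodP : ∀ (X : 𝒱.Obj) (D : X.Cycles) (m : ℕ), Pol X D → Pol (X.prod (P m)) (sumDiv ops D (h m))
  prodC : ∀ (X : 𝒱.Obj) (D : X.Cycles), Pol X D → Pol (X.prod C) (sumDiv ops D c)

lemma Setting.cls {W : WeilCohomology.{u, v} ops} {P : ℕ → 𝒱.Obj} {h : ∀ m, (P m).Cycles}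
    {C : 𝒱.Obj} {c : C.Cycles} {Pol : ∀ X : 𝒱.Obj, X.Cycles → Prop}
    (hS : Setting W P h C c Pol) : IsPolClass W P h Pol :=
  ⟨fun hX => hS.div _ _ hX, fun hX => hS.hard _ _ hX, fun m hX => hS.prodP _ _ m hX⟩

end Pool.Agent.TH720.LB
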