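import Pool.Agent.TH720.LB.Prod

/-!
# The Lefschetz isomorphism just below the middle on the product with a projective space
-/

open CategoryTheory AlgebraicGeometry Finset

universe u v

namespace Pool.Agent.TH720.LB

open Pool.Agent.H914 Pool.Agent.W534 Pool.Agent.W537 VarClass Obj WeilCohomology

variable {k : Type u} [Field k] {𝒱 : VarClass k} {ops : CycleOps 𝒱}
  {W : WeilCohomology.{u, v} ops} {X P : 𝒱.Obj} {D : X.Cycles} {h : P.Cycles}

/-- `β a c = ∑ (-1) ^ (a - 1 - b) ξ ^ (a - 1 - b) c t ^ b`, the sum over `b < a`. -/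
noncomputable def beta (W : WeilCohomology.{u, v} ops) {X : 𝒱.Obj} (D : X.Cycles) {P : 𝒱.Obj}
    (h : P.Cycles) : ℕ → (W.H X →ₗ[W.K] W.H (X.prod P))
  | 0 => 0
  | a + 1 => inc W X h a - beta W D h a ∘ₗ LinearMap.mulLeft W.K (W.cl X D)

lemma beta_zero (c : W.H X) : beta W D h 0 c = 0 := rfl

lemma beta_succ (a : ℕ) (c : W.H X) :
    beta W D h (a + 1) c = inc W X h a c - beta W D h a (W.cl X D * c) := rfl

lemma mul_beta (hD : X.IsCyc 1 D) (a : ℕ) (c : W.H X) :
    W.cl _ (sumDiv ops D h) * beta W D h a c =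
      inc W X h a c - (-1 : W.K) ^ a • inc W X h 0 (W.cl X D ^ a * c) := by
  induction a generalizing c with
  | zero => rw [beta_zero, mul_zero, pow_zero, pow_zero, one_mul, one_smul, sub_self]
  | succ a ih =>
    rw [beta_succ, mul_sub, mul_inc hD, ih, ← mul_assoc, ← pow_succ, pow_succ (-1 : W.K)]
    module

section

variable (hP : IsProjLike W P h)
include hP

lemma mul_beta_top (hD : X.IsCyc 1 D) (c : W.H X) :
    W.cl _ (sumDiv ops D h) * ((-1 : W.K) ^ P.dim • beta W D h (P.dim + 1) c) =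
      inc W X h 0 (W.cl X D ^ (P.dim + 1) * c) := by
  rw [mul_smul_comm, mul_beta hD, inc_zero hP (Nat.lt_succ_self _), LinearMap.zero_apply, zero_sub,
    smul_neg, smul_smul, pow_succ (-1 : W.K), ← mul_assoc, ← pow_add, ← two_mul, pow_mul]
  simp

lemma coe_beta {a c : ℕ} (hc : c ≤ P.dim) (hac : a ≤ c) (x : W.H X) :
    coe W X h c (beta W D h a x) = 0 := by
  induction a generalizing x with
  | zero => rw [beta_zero, map_zero]
  | succ a ih =>
    rw [beta_succ, map_sub, coe_inc hP hc, if_neg (by omega), ih (by omega), sub_zero]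

lemma coe_beta_top (x : W.H X) : coe W X h P.dim (beta W D h (P.dim + 1) x) = x := by
  rw [beta_succ, map_sub, coe_inc hP le_rfl, if_pos rfl, coe_beta hP le_rfl le_rfl, sub_zero]

lemma qop_beta (hD : X.IsCyc 1 D) (a : ℕ) :
    QOp W X (X.prod P) ((a : ℤ) - 1) (beta W D h a) := by
  induction a with
  | zero => exact QOp.zero _
  | succ a ih =>
    refine qop_sub ?_ ?_
    · exact (qop_inc hP a).cast (by push_cast; ring)
    · exact (ih.comp (qop_mul hD)).cast (by push_cast; ring)

/-- the operator `B` -/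
noncomputable def bigB (W : WeilCohomology.{u, v} ops) {X : 𝒱.Obj} (D : X.Cycles) {P : 𝒱.Obj}
    (h : P.Cycles) : W.H (X.prod P) →ₗ[W.K] W.H (X.prod P) :=
  ∑ a ∈ range (P.dim + 1), beta W D h a ∘ₗ coe W X h a

/-- the operator `S` -/
noncomputable def bigS (W : WeilCohomology.{u, v} ops) {X : 𝒱.Obj} (D : X.Cycles) {P : 𝒱.Obj}
    (h : P.Cycles) : W.H (X.prod P) →ₗ[W.K] W.H X :=
  ∑ a ∈ range (P.dim + 1),
    (-1 : W.K) ^ a • (LinearMap.mulLeft W.K (W.cl X D ^ a) ∘ₗ coe W X h a)

lemma bigB_inc {a : ℕ} (ha : a ≤ P.dim) (x : W.H X) :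
    bigB W D h (inc W X h a x) = beta W D h a x := by
  rw [bigB, LinearMap.sum_apply, Finset.sum_eq_single_of_mem a (by simp; omega)]
  · rw [LinearMap.comp_apply, coe_inc hP ha, if_pos rfl]
  · intro b hb hba
    rw [LinearMap.comp_apply, coe_inc hP (by simp at hb; omega), if_neg hba, map_zero]

lemma bigS_inc {a : ℕ} (ha : a ≤ P.dim) (x : W.H X) :
    bigS W D h (inc W X h a x) = (-1 : W.K) ^ a • (W.cl X D ^ a * x) := by
  rw [bigS, LinearMap.sum_apply, Finset.sum_eq_single_of_mem a (by simp; omega)]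
  · rw [LinearMap.smul_apply, LinearMap.comp_apply, coe_inc hP ha, if_pos rfl]
    rfl
  · intro b hb hba
    rw [LinearMap.smul_apply, LinearMap.comp_apply, coe_inc hP (by simp at hb; omega),
      if_neg hba, map_zero, smul_zero]

/-- `(ξ + t) (B y) = y - S y` -/
lemma mul_bigB (hD : X.IsCyc 1 D) (y : W.H (X.prod P)) :
    W.cl _ (sumDiv ops D h) * bigB W D h y = y - inc W X h 0 (bigS W D h y) := by
  refine prod_induction hP (p := fun y =>
    W.cl _ (sumDiv ops D h) * bigB W D h y = y - inc W X h 0 (bigS W D h y)) ?_ ?_ y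
  · intro y y' hy hy'
    simp only [map_add, mul_add, hy, hy']
    abel
  · intro a ha x
    simp only [bigB_inc hP ha, bigS_inc hP ha, mul_beta hD, map_smul]

/-- `B ((ξ + t) y) = y - β y_m` -/
lemma bigB_mul (hD : X.IsCyc 1 D) (y : W.H (X.prod P)) :
    bigB W D h (W.cl _ (sumDiv ops D h) * y) = y - beta W D h (P.dim + 1) (coe W X h P.dim y) := by
  refine prod_induction hP (p := fun y => bigB W D h (W.cl _ (sumDiv ops D h) * y) =
    y - beta W D h (P.dim + 1) (coe W X h P.dim y)) ?_ ?_ y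
  · intro y y' hy hy'
    simp only [map_add, mul_add, hy, hy']
    abel
  · intro a ha x
    simp only [mul_inc hD, map_add, bigB_inc hP ha, coe_inc hP le_rfl]
    rcases Nat.lt_or_ge a P.dim with hlt | hge
    · rw [bigB_inc hP hlt, beta_succ, if_neg (by omega), map_zero]
      abel
    · obtain rfl : a = P.dim := le_antisymm ha hge
      rw [inc_zero hP (Nat.lt_succ_self _), LinearMap.zero_apply, map_zero, if_pos rfl, beta_succ]
      abel

/-- `S ((ξ + t) y) = ± ξ ^ (m + 1) y_m` -/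
lemma bigS_mul (hD : X.IsCyc 1 D) (y : W.H (X.prod P)) :
    bigS W D h (W.cl _ (sumDiv ops D h) * y) =
      (-1 : W.K) ^ P.dim • (W.cl X D ^ (P.dim + 1) * coe W X h P.dim y) := by
  refine prod_induction hP (p := fun y => bigS W D h (W.cl _ (sumDiv ops D h) * y) =
    (-1 : W.K) ^ P.dim • (W.cl X D ^ (P.dim + 1) * coe W X h P.dim y)) ?_ ?_ y
  · intro y y' hy hy'
    simp only [map_add, mul_add, hy, hy', smul_add]
  · intro a ha x
    simp only [mul_inc hD, map_add, bigS_inc hP ha, coe_inc hP le_rfl]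
    rcases Nat.lt_or_ge a P.dim with hlt | hge
    · rw [bigS_inc hP hlt, if_neg (by omega), mul_zero, smul_zero, ← mul_assoc, ← pow_succ,
        pow_succ (-1 : W.K)]
      module
    · obtain rfl : a = P.dim := le_antisymm ha hge
      rw [inc_zero hP (Nat.lt_succ_self _), LinearMap.zero_apply, map_zero, if_pos rfl, add_zero,
        ← mul_assoc, ← pow_succ]

omit hP in
lemma qop_sign {X Y : 𝒱.Obj} {d : ℤ} {φ : W.H X →ₗ[W.K] W.H Y} (hφ : QOp W X Y d φ) (a : ℕ) :
    QOp W X Y d ((-1 : W.K) ^ a • φ) := by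
  have h1 := hφ.smul ((-1) ^ a)
  rwa [Rat.cast_pow, Rat.cast_neg, Rat.cast_one] at h1

lemma qop_bigB (hD : X.IsCyc 1 D) : QOp W (X.prod P) (X.prod P) (-1) (bigB W D h) := by
  refine QOp.sum fun a ha => ?_
  exact ((qop_beta hP hD a).comp (qop_coe hP (by simp at ha; omega))).cast (by ring)

lemma qop_bigS (hD : X.IsCyc 1 D) : QOp W (X.prod P) X 0 (bigS W D h) := by
  refine QOp.sum fun a ha => ?_
  exact qop_sign (((qop_mul_pow hD a).comp (qop_coe hP (by simp at ha; omega))).cast
    (by ring)) a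

omit hP in
lemma statementA_iff (i : ℕ) : StatementA W X D i ↔
    ∃ T, QOp W X X ((i : ℤ) - X.dim) T ∧
      (∀ a ∈ W.gr X i, T (W.cl X D ^ (X.dim - i) * a) = a) ∧
      ∀ b ∈ W.gr X (2 * X.dim - i), W.cl X D ^ (X.dim - i) * T b = b := by
  constructor
  · rintro ⟨z, hz, h1, h2⟩
    exact ⟨_, QOp.gen (p := i) (by ring) hz, h1, h2⟩
  · rintro ⟨T, hT, h1, h2⟩
    obtain ⟨z, hz, rfl⟩ := hT.exists_cyc (p := i) (by ring)
    exact ⟨z, hz, h1, h2⟩

/-- **Statement (a) for `X` in degree `n - (m + 1)` is equivalent to statement (a) for `X × P` just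
below the middle.** -/
theorem below_iff (hD : X.IsCyc 1 D) (hw : P.dim + 1 ≤ X.dim) :
    StatementA W X D (X.dim - (P.dim + 1)) ↔
      StatementA W (X.prod P) (sumDiv ops D h) ((X.prod P).dim - 1) := by
  have hdim : (X.prod P).dim = X.dim + P.dim := dim_prod X P
  rw [statementA_iff, statementA_iff]
  have e1 : X.dim - (X.dim - (P.dim + 1)) = P.dim + 1 := by omega
  have e2 : 2 * X.dim - (X.dim - (P.dim + 1)) = X.dim + P.dim + 1 := by omega
  have e3 : (X.prod P).dim - ((X.prod P).dim - 1) = 1 := by omega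
  have e4 : 2 * (X.prod P).dim - ((X.prod P).dim - 1) = X.dim + P.dim + 1 := by omega
  rw [e1, e2, e3, e4]
  have hsq : (-1 : W.K) ^ P.dim * (-1) ^ P.dim = 1 := by
    rw [← pow_add, ← two_mul, pow_mul]; simp
  constructor
  · rintro ⟨Θ, hΘ, h1, h2⟩
    refine ⟨bigB W D h + (-1 : W.K) ^ P.dim • (beta W D h (P.dim + 1) ∘ₗ Θ ∘ₗ bigS W D h),
      ?_, ?_, ?_⟩
    · refine ((qop_bigB hP hD).cast (by omega)).add (qop_sign ?_ _)
      exact ((qop_beta hP hD _).comp (hΘ.comp (qop_bigS hP hD))).cast (by omega)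
    · intro y hy
      rw [pow_one, LinearMap.add_apply, LinearMap.smul_apply, LinearMap.comp_apply,
        LinearMap.comp_apply, bigB_mul hP hD, bigS_mul hP hD, map_smul, map_smul, smul_smul, hsq,
        one_smul, h1, sub_add_cancel]
      exact qop_mem (qop_coe hP le_rfl) hy (by omega)
    · intro x hx
      rw [pow_one, LinearMap.add_apply, LinearMap.smul_apply, LinearMap.comp_apply,
        LinearMap.comp_apply, mul_add, mul_bigB hP hD, mul_beta_top hP hD, h2, sub_add_cancel]
      exact qop_mem (qop_bigS hP hD) hx (by omega)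
  · rintro ⟨U, hU, h1, h2⟩
    simp only [pow_one] at h1 h2
    refine ⟨(-1 : W.K) ^ P.dim • (coe W X h P.dim ∘ₗ U ∘ₗ inc W X h 0), ?_, ?_, ?_⟩
    · refine qop_sign ?_ _
      exact ((qop_coe hP le_rfl).comp (hU.comp (qop_inc hP 0))).cast (by omega)
    · intro a ha
      rw [LinearMap.smul_apply, LinearMap.comp_apply, LinearMap.comp_apply,
        ← mul_beta_top hP hD, h1, map_smul, coe_beta_top hP, smul_smul, hsq, one_smul]
      exact Submodule.smul_mem _ _ (qop_mem (qop_beta hP hD _) ha (by omega))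
    · intro b hb
      have hb' : inc W X h 0 b ∈ W.gr (X.prod P) (X.dim + P.dim + 1) :=
        qop_mem (qop_inc hP 0) hb (by omega)
      have h3 := congrArg (bigS W D h) (h2 _ hb')
      rw [bigS_mul hP hD, bigS_inc hP (Nat.zero_le _), pow_zero, pow_zero, one_mul, one_smul] at h3
      rw [LinearMap.smul_apply, mul_smul_comm]
      exact h3

end

end Pool.Agent.TH720.LB
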