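import Pool.Agent.W534.QOp
import Pool.Agent.W537.OneCycleDefs

/-!
# The Lefschetz standard conjecture beside the middle: definitions
-/

open CategoryTheory AlgebraicGeometry Finset

universe u v

namespace Pool.Agent.TH720.LB

open Pool.Agent.H914 Pool.Agent.W537 VarClass Obj WeilCohomology

variable {k : Type u} [Field k] {𝒱 : VarClass k} {ops : CycleOps 𝒱}

/-- The divisor `D × P + X × h` on `X × P`. -/
noncomputable def sumDiv (ops : CycleOps 𝒱) {X P : 𝒱.Obj} (D : X.Cycles) (h : P.Cycles) :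
    (X.prod P).Cycles :=
  ops.pull (fst X P) D + ops.pull (snd X P) h

/-- `P` with the divisor `h` looks like a projective space with a hyperplane for the cohomology
theory `W`: the cohomology of `P` is spanned by the powers of the class of `h`, and `h ^ dim P` has
degree `1`. -/
structure IsProjLike (W : WeilCohomology.{u, v} ops) (P : 𝒱.Obj) (h : P.Cycles) : Prop where
  div : P.IsCyc 1 h
  deg : W.tr P (W.cl P h ^ P.dim) = 1
  span : ∀ a : W.H P, a ∈ Submodule.span W.K (Set.range fun j : ℕ => W.cl P h ^ j)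

/-- Statement (a) in degree `i`: the inverse of `ξ ^ (n - i) : H^i(X) → H^(2n - i)(X)` is induced by
an algebraic cycle on `X × X` (`n = dim X`, `ξ` the class of `D`). -/
def StatementA (W : WeilCohomology.{u, v} ops) (X : 𝒱.Obj) (D : X.Cycles) (i : ℕ) : Prop :=
  ∃ z, InvertsLefschetz W X D i z

/-- Statement (b) in degree `i`: some algebraic cycle of codimension `n - 1` on `X × X` sends `ξ b`
to `b` for `b` in `H^(i - 2)(X)`, and kills the primitive classes `a` in `H^i(X)`,
`ξ ^ (n - i + 1) a = 0`. -/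
def StatementB (W : WeilCohomology.{u, v} ops) (X : 𝒱.Obj) (D : X.Cycles) (i : ℕ) : Prop :=
  ∃ z, (X.prod X).IsCyc (X.dim - 1) z ∧
    (∀ a ∈ W.gr X i, W.cl X D ^ (X.dim - i + 1) * a = 0 → cycOp W X z a = 0) ∧
    ∀ j, j + 2 = i → ∀ b ∈ W.gr X j, cycOp W X z (W.cl X D * b) = b

/-- A class of pairs `(X, D)` of a variety and a divisor with hard Lefschetz (for example all pairs
with `D` ample) which with `(X, D)` contains all `(X × P m, D × P m + X × h m)`. -/
structure IsPolClass (W : WeilCohomology.{u, v} ops) (P : ℕ → 𝒱.Obj) (h : ∀ m, (P m).Cycles)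
    (Pol : ∀ X : 𝒱.Obj, X.Cycles → Prop) : Prop where
  div : ∀ {X : 𝒱.Obj} {D : X.Cycles}, Pol X D → X.IsCyc 1 D
  hard : ∀ {X : 𝒱.Obj} {D : X.Cycles}, Pol X D → HardLefschetz W X D
  prod : ∀ {X : 𝒱.Obj} {D : X.Cycles} (m : ℕ), Pol X D →
    Pol (X.prod (P m)) (sumDiv ops D (h m))

end Pool.Agent.TH720.LB
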