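import Pool.Agent.TH720.LB.Mid

/-!
# Statements (a) and (b) in neighbouring degrees
-/

open CategoryTheory AlgebraicGeometry Finset

universe u v

namespace Pool.Agent.TH720.LB

open Pool.Agent.H914 Pool.Agent.W534 Pool.Agent.W537 VarClass Obj WeilCohomology

variable {k : Type u} [Field k] {𝒱 : VarClass k} {ops : CycleOps 𝒱}
  {W : WeilCohomology.{u, v} ops} {X P : 𝒱.Obj} {D : X.Cycles} {h : P.Cycles}

/-- statement (a) in the middle degree: the diagonal -/
lemma statementA_top : StatementA W X D X.dim := by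
  rw [statementA_iff]
  refine ⟨LinearMap.id, qop_id.cast (by ring), ?_, ?_⟩
  · intro a _
    rw [Nat.sub_self, pow_zero, one_mul, LinearMap.id_apply]
  · intro b _
    rw [Nat.sub_self, pow_zero, one_mul, LinearMap.id_apply]

/-- statement (b) in the degrees `0` and `1` -/
lemma statementB_low {i : ℕ} (hi : i < 2) : StatementB W X D i := by
  refine ⟨0, SmVar.IsCyc.zero _ _, ?_, ?_⟩
  · intro a _ _
    rw [cycOp, map_zero, corr_zero, LinearMap.zero_apply]
  · intro j hj
    omega

/-- statement (a) in degree `j` implies statement (b) in degree `j + 2` -/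
theorem statementB_of_A (hD : X.IsCyc 1 D) {j : ℕ} (hj : j + 2 ≤ X.dim)
    (hA : StatementA W X D j) : StatementB W X D (j + 2) := by
  obtain ⟨T, hT, h1, -⟩ := (statementA_iff j).1 hA
  have hq : QOp W X X (-1) (T ∘ₗ LinearMap.mulLeft W.K (W.cl X D ^ (X.dim - (j + 2) + 1))) :=
    (hT.comp (qop_mul_pow hD _)).cast (by omega)
  obtain ⟨z, hz, hzT⟩ := hq.exists_cyc (p := X.dim - 1) (by omega)
  refine ⟨z, hz, ?_, ?_⟩
  · intro a _ ha
    rw [cycOp, hzT, LinearMap.comp_apply, LinearMap.mulLeft_apply, ha, map_zero]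
  · intro i hi b hb
    obtain rfl : i = j := by omega
    rw [cycOp, hzT, LinearMap.comp_apply, LinearMap.mulLeft_apply, ← mul_assoc, ← pow_succ,
      show X.dim - (i + 2) + 1 + 1 = X.dim - i by omega, h1 b hb]

/-- the adjoint of the splitting -/
lemma adj_split (hD : X.IsCyc 1 D) (hHL : HardLefschetz W X D) {i : ℕ} (hi : i + 2 ≤ X.dim)
    {z : (X.prod X).Cycles} (hz : (X.prod X).IsCyc (X.dim - 1) z)
    (h1 : ∀ a ∈ W.gr X (i + 2), W.cl X D ^ (X.dim - (i + 2) + 1) * a = 0 → cycOp W X z a = 0)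
    (h2 : ∀ b ∈ W.gr X i, cycOp W X z (W.cl X D * b) = b) {c : W.H X} (hc : c ∈ W.gr X i) :
    W.corr (W.map (swap X X) (W.cl _ z)) (W.cl X D ^ (X.dim - i) * c) =
      W.cl X D ^ (X.dim - (i + 2) + 1) * c := by
  have hξ : W.cl X D ∈ W.gr X 2 := cl_div hD
  have hξ' : W.cl X D ∈ W.gr X (2 * 1) := hξ
  set w := X.dim - (i + 2) with hw
  have hw' : X.dim = w + i + 2 := by omega
  have hRq : QOp W X X (-1) (W.corr (W.map (swap X X) (W.cl _ z))) := by
    rw [← W.cl_pull]
    exact QOp.gen (p := X.dim - 1) (by omega) (ops.pull_mem _ hz)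
  have hin : W.cl X D ^ (X.dim - i) * c ∈ W.gr X (2 * (X.dim - i) + i) :=
    W.mul_mem (pow_mem' hξ _) hc
  have hout : W.corr (W.map (swap X X) (W.cl _ z)) (W.cl X D ^ (X.dim - i) * c) ∈
      W.gr X (X.dim + w) := qop_mem hRq hin (by omega)
  have hout2 : W.cl X D ^ (w + 1) * c ∈ W.gr X (X.dim + w) := by
    have := W.mul_mem (pow_mem' hξ (w + 1)) hc
    rwa [show 2 * (w + 1) + i = X.dim + w by omega] at this
  apply sub_eq_zero.1
  apply nondeg_right
  intro b
  refine gr_induction (W.isInternal X) (p := fun b => W.tr X (b *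
    (W.corr (W.map (swap X X) (W.cl _ z)) (W.cl X D ^ (X.dim - i) * c) -
      W.cl X D ^ (w + 1) * c)) = 0) ?_ ?_ b
  swap
  · intro a a' ha ha'
    simp only [add_mul, map_add, ha, ha', add_zero]
  intro l a ha
  by_cases hl : l + (X.dim + w) = 2 * X.dim
  swap
  · exact W.tr_eq_zero (W.mul_mem ha (Submodule.sub_mem _ hout hout2)) hl
  obtain rfl : l = X.dim - w := by omega
  obtain ⟨a', a'', rfl, ha', ha0, hor⟩ := prim_decomp hD hHL (m := w) (by omega) ha
  have e1 : ∀ x : W.H X, x ∈ W.gr X (X.dim - w) →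
      W.tr X (x * W.corr (W.map (swap X X) (W.cl _ z)) (W.cl X D ^ (X.dim - i) * c)) =
        W.tr X (cycOp W X z x * (W.cl X D ^ (X.dim - i) * c)) := by
    intro x _
    rw [cycOp, tr_corr_swap (W.cl_mem hz)]
  have hdeg : X.dim - w = i + 2 := by omega
  -- the primitive part
  have k1 : W.tr X (a' * (W.corr (W.map (swap X X) (W.cl _ z)) (W.cl X D ^ (X.dim - i) * c) -
      W.cl X D ^ (w + 1) * c)) = 0 := by
    rw [mul_sub, map_sub, e1 a' ha', h1 a' (by rwa [hdeg] at ha') ha0, zero_mul, map_zero,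
      zero_sub, neg_eq_zero, ← mul_assoc, ← W.even_comm (pow_mem' hξ (w + 1)), ha0, zero_mul,
      map_zero]
  have k2 : W.tr X (a'' * (W.corr (W.map (swap X X) (W.cl _ z)) (W.cl X D ^ (X.dim - i) * c) -
      W.cl X D ^ (w + 1) * c)) = 0 := by
    rcases hor with rfl | ⟨j, hj, b0, hb0, rfl⟩
    · rw [zero_mul, map_zero]
    · obtain rfl : j = i := by omega
      have hm : W.cl X D * b0 ∈ W.gr X (X.dim - w) := by
        have := W.mul_mem hξ hb0
        rwa [show 2 + j = X.dim - w by omega] at this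
      rw [mul_sub, map_sub, e1 _ hm, h2 b0 hb0, sub_eq_zero]
      congr 1
      rw [W.even_comm hξ' b0, mul_assoc, ← mul_assoc (W.cl X D), ← pow_succ',
        show X.dim - j = w + 1 + 1 by omega]
  rw [add_mul, map_add, k1, k2, add_zero]

/-- **Statement (b) in degree `i + 2` and statement (a) in degree `i + 2` imply statement (a) in
degree `i`.** -/
theorem statementA_down (hD : X.IsCyc 1 D) (hHL : HardLefschetz W X D) {i : ℕ}
    (hi : i + 2 ≤ X.dim) (hB : StatementB W X D (i + 2)) (hA : StatementA W X D (i + 2)) :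
    StatementA W X D i := by
  have hξ : W.cl X D ∈ W.gr X 2 := cl_div hD
  obtain ⟨T, hT, t1, -⟩ := (statementA_iff (i + 2)).1 hA
  obtain ⟨z, hz, h1, h2⟩ := hB
  have h2' : ∀ b ∈ W.gr X i, cycOp W X z (W.cl X D * b) = b := h2 i rfl
  have hR : QOp W X X (-1) (cycOp W X z) := QOp.gen (p := X.dim - 1) (by omega) hz
  have hR' : QOp W X X (-1) (W.corr (W.map (swap X X) (W.cl _ z))) := by
    rw [← W.cl_pull]
    exact QOp.gen (p := X.dim - 1) (by omega) (ops.pull_mem _ hz)
  have := statementA_of_left hHL (m := X.dim - i) (by omega)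
    (T := cycOp W X z ∘ₗ (T ∘ₗ W.corr (W.map (swap X X) (W.cl _ z))))
    ((hR.comp (hT.comp hR')).cast (by push_cast; omega)) (by
      intro a ha
      rw [show X.dim - (X.dim - i) = i by omega] at ha
      rw [LinearMap.comp_apply, LinearMap.comp_apply, adj_split hD hHL hi hz h1 h2' ha,
        pow_succ, mul_assoc, t1, h2' a ha]
      have := W.mul_mem hξ ha
      rwa [add_comm 2 i] at this)
  rwa [show X.dim - (X.dim - i) = i by omega] at this

end Pool.Agent.TH720.LB
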