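import Pool.Agent.TH720.LB.Below

/-!
# The primitive decomposition in the middle degree of the product with a projective space
-/

open CategoryTheory AlgebraicGeometry Finset

universe u v

namespace Pool.Agent.TH720.LB

open Pool.Agent.H914 Pool.Agent.W534 Pool.Agent.W537 VarClass Obj WeilCohomology

variable {k : Type u} [Field k] {𝒱 : VarClass k} {ops : CycleOps 𝒱}
  {W : WeilCohomology.{u, v} ops} {X P : 𝒱.Obj} {D : X.Cycles} {h : P.Cycles}

/-- `γ a c = ∑ (-1) ^ j (j + 1) ξ ^ j c t ^ (a - 1 - j)`, the sum over `j < a`. -/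
noncomputable def gam (W : WeilCohomology.{u, v} ops) {X : 𝒱.Obj} (D : X.Cycles) {P : 𝒱.Obj}
    (h : P.Cycles) : ℕ → (W.H X →ₗ[W.K] W.H (X.prod P))
  | 0 => 0
  | a + 1 => beta W D h (a + 1) - gam W D h a ∘ₗ LinearMap.mulLeft W.K (W.cl X D)

lemma gam_zero (c : W.H X) : gam W D h 0 c = 0 := rfl

lemma gam_succ (a : ℕ) (c : W.H X) :
    gam W D h (a + 1) c = beta W D h (a + 1) c - gam W D h a (W.cl X D * c) := rfl

lemma mul_gam (hD : X.IsCyc 1 D) (a : ℕ) (c : W.H X) :
    W.cl _ (sumDiv ops D h) * gam W D h a c =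
      beta W D h (a + 1) c -
        ((-1 : W.K) ^ a * ((a : W.K) + 1)) • inc W X h 0 (W.cl X D ^ a * c) := by
  induction a generalizing c with
  | zero =>
    rw [gam_zero, mul_zero, beta_succ, beta_zero, sub_zero, pow_zero, pow_zero, one_mul,
      Nat.cast_zero, zero_add, one_mul, one_smul, sub_self]
  | succ a ih =>
    have e : W.cl X D ^ a * (W.cl X D * c) = W.cl X D ^ (a + 1) * c := by
      rw [← mul_assoc, ← pow_succ]
    rw [gam_succ, mul_sub, mul_beta hD, ih, beta_succ (a + 1), e]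
    push_cast
    rw [pow_succ (-1 : W.K)]
    module

section

variable (hP : IsProjLike W P h)
include hP

lemma coe_gam {a c : ℕ} (hc : c ≤ P.dim) (hac : a ≤ c) (x : W.H X) :
    coe W X h c (gam W D h a x) = 0 := by
  induction a generalizing x with
  | zero => rw [gam_zero, map_zero]
  | succ a ih =>
    rw [gam_succ, map_sub, coe_beta hP hc hac, ih (by omega), sub_zero]

lemma coe_beta_succ {a : ℕ} (ha : a ≤ P.dim) (x : W.H X) :
    coe W X h a (beta W D h (a + 1) x) = x := by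
  rw [beta_succ, map_sub, coe_inc hP ha, if_pos rfl, coe_beta hP ha le_rfl, sub_zero]

lemma coe_gam_succ {a : ℕ} (ha : a ≤ P.dim) (x : W.H X) :
    coe W X h a (gam W D h (a + 1) x) = x := by
  rw [gam_succ, map_sub, coe_beta_succ hP ha, coe_gam hP ha le_rfl, sub_zero]

lemma qop_gam (hD : X.IsCyc 1 D) (a : ℕ) :
    QOp W X (X.prod P) ((a : ℤ) - 1) (gam W D h a) := by
  induction a with
  | zero => exact QOp.zero _
  | succ a ih =>
    refine qop_sub (qop_beta hP hD _) ?_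
    exact (ih.comp (qop_mul hD)).cast (by push_cast; ring)

/-- The composition of the splitting in the middle degree with the inclusion of `H(X)` and with
the coefficient of `t ^ (m - 1)`. -/
lemma split_prim (hD : X.IsCyc 1 D) (hm : 1 ≤ P.dim) (hmn : P.dim ≤ X.dim)
    {R : W.H (X.prod P) →ₗ[W.K] W.H (X.prod P)}
    (h1 : ∀ a ∈ W.gr (X.prod P) (X.dim + P.dim), W.cl _ (sumDiv ops D h) * a = 0 → R a = 0)
    (h2 : ∀ b ∈ W.gr (X.prod P) (X.dim + P.dim - 2), R (W.cl _ (sumDiv ops D h) * b) = b)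
    {c : W.H X} (hc : c ∈ W.gr X (X.dim - P.dim)) (hc0 : W.cl X D ^ (P.dim + 1) * c = 0) :
    coe W X h (P.dim - 1) (R (inc W X h 0 (W.cl X D ^ P.dim * c))) =
      (-((-1 : W.K) ^ P.dim) / ((P.dim : W.K) + 1)) • c := by
  have hne : ((P.dim : W.K) + 1) ≠ 0 := by
    have := Nat.cast_add_one_ne_zero (R := W.K) P.dim
    exact this
  have hsq : (-1 : W.K) ^ P.dim * (-1) ^ P.dim = 1 := by
    rw [← pow_add, ← two_mul, pow_mul]; simp
  have hb : beta W D h (P.dim + 1) c ∈ W.gr (X.prod P) (X.dim + P.dim) :=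
    qop_mem (qop_beta hP hD _) hc (by omega)
  have hb0 : W.cl _ (sumDiv ops D h) * beta W D h (P.dim + 1) c = 0 := by
    rw [mul_beta hD, inc_zero hP (Nat.lt_succ_self _), LinearMap.zero_apply, hc0, map_zero,
      smul_zero, sub_zero]
  have hg : gam W D h P.dim c ∈ W.gr (X.prod P) (X.dim + P.dim - 2) :=
    qop_mem (qop_gam hP hD _) hc (by omega)
  have h3 := h1 _ hb hb0
  have h4 := h2 _ hg
  rw [mul_gam hD, map_sub, h3, zero_sub, map_smul] at h4
  have h5 := congrArg (coe W X h (P.dim - 1)) h4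
  rw [map_neg, map_smul] at h5
  obtain ⟨m, hm'⟩ : ∃ m, P.dim = m + 1 := ⟨P.dim - 1, by omega⟩
  have h6 : coe W X h (P.dim - 1) (gam W D h P.dim c) = c := by
    have : P.dim - 1 = m := by omega
    rw [this, hm']
    exact coe_gam_succ hP (by omega) c
  rw [h6] at h5
  generalize coe W X h (P.dim - 1) (R (inc W X h 0 (W.cl X D ^ P.dim * c))) = v at h5 ⊢
  have h7 : v = ((-1 : W.K) ^ P.dim / ((P.dim : W.K) + 1)) • -c := by
    rw [← h5, neg_neg, smul_smul, div_mul_eq_mul_div, ← mul_assoc, hsq, one_mul, div_self hne,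
      one_smul]
  rw [h7]
  module

lemma split_img (hD : X.IsCyc 1 D) (hm : 1 ≤ P.dim)
    {R : W.H (X.prod P) →ₗ[W.K] W.H (X.prod P)}
    (h2 : ∀ b ∈ W.gr (X.prod P) (X.dim + P.dim - 2), R (W.cl _ (sumDiv ops D h) * b) = b)
    {c : W.H X} {j : ℕ} (hj : j + 2 = X.dim - P.dim) (hc : c ∈ W.gr X j) :
    coe W X h (P.dim - 1) (R (inc W X h 0 (W.cl X D ^ P.dim * (W.cl X D * c)))) =
      (-((-1 : W.K) ^ P.dim)) • (W.cl X D * c) := by
  have e : W.cl X D ^ P.dim * (W.cl X D * c) = W.cl X D ^ (P.dim + 1) * c := by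
    rw [← mul_assoc, ← pow_succ]
  have hb : (-1 : W.K) ^ P.dim • beta W D h (P.dim + 1) c ∈
      W.gr (X.prod P) (X.dim + P.dim - 2) :=
    Submodule.smul_mem _ _ (qop_mem (qop_beta hP hD _) hc (by omega))
  rw [e, ← mul_beta_top hP hD, h2 _ hb, map_smul]
  obtain ⟨m, hm'⟩ : ∃ m, P.dim = m + 1 := ⟨P.dim - 1, by omega⟩
  have h6 : coe W X h (P.dim - 1) (beta W D h (P.dim + 1) c) = -(W.cl X D * c) := by
    have h7 : P.dim - 1 = m := by omega
    rw [h7, beta_succ, map_sub, coe_inc hP (by omega), if_neg (by omega), hm',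
      coe_beta_succ hP (by omega), zero_sub]
  rw [h6]
  module

end

/-- The primitive decomposition. -/
lemma prim_decomp (hD : X.IsCyc 1 D) (hHL : HardLefschetz W X D) {m : ℕ} (hm : m ≤ X.dim)
    {c : W.H X} (hc : c ∈ W.gr X (X.dim - m)) :
    ∃ c' c'' : W.H X, c = c' + c'' ∧ c' ∈ W.gr X (X.dim - m) ∧ W.cl X D ^ (m + 1) * c' = 0 ∧
      (c'' = 0 ∨ ∃ j, j + 2 = X.dim - m ∧ ∃ b ∈ W.gr X j, c'' = W.cl X D * b) := by
  have hξ : W.cl X D ∈ W.gr X 2 := cl_div hD
  have hc1 : W.cl X D ^ (m + 1) * c ∈ W.gr X (2 * (m + 1) + (X.dim - m)) :=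
    W.mul_mem (pow_mem' hξ _) hc
  rcases Nat.lt_or_ge (X.dim - m) 2 with hlt | hge
  · refine ⟨c, 0, (add_zero c).symm, hc, ?_, Or.inl rfl⟩
    rw [W.gr_eq_bot X _ (by omega)] at hc1
    exact (Submodule.mem_bot _).1 hc1
  · obtain ⟨j, hj⟩ : ∃ j, j + 2 = X.dim - m := ⟨X.dim - m - 2, by omega⟩
    obtain ⟨-, hs⟩ := hHL j (by omega)
    have hc2 : W.cl X D ^ (m + 1) * c ∈ W.gr X (2 * X.dim - j) := by
      rwa [show 2 * X.dim - j = 2 * (m + 1) + (X.dim - m) by omega]
    obtain ⟨b, hb, hb2⟩ := hs _ hc2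
    rw [LinearMap.pow_mulLeft, LinearMap.mulLeft_apply, show X.dim - j = m + 1 + 1 by omega] at hb2
    have hξb : W.cl X D * b ∈ W.gr X (X.dim - m) := by
      have := W.mul_mem hξ hb
      rwa [show 2 + j = X.dim - m by omega] at this
    refine ⟨c - W.cl X D * b, W.cl X D * b, (sub_add_cancel _ _).symm,
      Submodule.sub_mem _ hc hξb, ?_, Or.inr ⟨j, hj, b, hb, rfl⟩⟩
    rw [mul_sub, ← mul_assoc, ← pow_succ, hb2, sub_self]

/-- hard Lefschetz with powers of the class -/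
lemma hl_surj (hHL : HardLefschetz W X D) {m : ℕ} (hm : m ≤ X.dim) {b : W.H X}
    (hb : b ∈ W.gr X (X.dim + m)) : ∃ a ∈ W.gr X (X.dim - m), W.cl X D ^ m * a = b := by
  obtain ⟨-, hs⟩ := hHL (X.dim - m) (by omega)
  obtain ⟨a, ha, hab⟩ := hs b (by rwa [show 2 * X.dim - (X.dim - m) = X.dim + m by omega])
  rw [LinearMap.pow_mulLeft, LinearMap.mulLeft_apply, show X.dim - (X.dim - m) = m by omega] at hab
  exact ⟨a, ha, hab⟩

/-- a left inverse is enough -/
lemma statementA_of_left (hHL : HardLefschetz W X D) {m : ℕ} (hm : m ≤ X.dim)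
    {T : W.H X →ₗ[W.K] W.H X} (hT : QOp W X X (-m) T)
    (h1 : ∀ a ∈ W.gr X (X.dim - m), T (W.cl X D ^ m * a) = a) :
    StatementA W X D (X.dim - m) := by
  rw [statementA_iff]
  refine ⟨T, hT.cast (by omega), ?_, ?_⟩
  · intro a ha
    rw [show X.dim - (X.dim - m) = m by omega]
    exact h1 a ha
  · intro b hb
    rw [show 2 * X.dim - (X.dim - m) = X.dim + m by omega] at hb
    rw [show X.dim - (X.dim - m) = m by omega]
    obtain ⟨a, ha, rfl⟩ := hl_surj hHL hm hb
    rw [h1 a ha]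

/-- **Statement (b) in the middle degree of `X × P` implies statement (a) for `X` in degree
`n - m`.** -/
theorem middle_imp (hP : IsProjLike W P h) (hD : X.IsCyc 1 D) (hHL : HardLefschetz W X D)
    (hm : 1 ≤ P.dim) (hmn : P.dim ≤ X.dim)
    (hB : StatementB W (X.prod P) (sumDiv ops D h) (X.prod P).dim) :
    StatementA W X D (X.dim - P.dim) := by
  have hdim : (X.prod P).dim = X.dim + P.dim := dim_prod X P
  obtain ⟨z, hz, h1, h2⟩ := hB
  set R := cycOp W (X.prod P) z with hR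
  have hRq : QOp W (X.prod P) (X.prod P) (-1) R := QOp.gen (p := (X.prod P).dim - 1) (by omega) hz
  have h1' : ∀ a ∈ W.gr (X.prod P) (X.dim + P.dim), W.cl _ (sumDiv ops D h) * a = 0 →
      R a = 0 := by
    intro a ha h0
    refine h1 a (by rwa [hdim]) ?_
    rw [Nat.sub_self, zero_add, pow_one]
    exact h0
  have h2' : ∀ b ∈ W.gr (X.prod P) (X.dim + P.dim - 2), R (W.cl _ (sumDiv ops D h) * b) = b :=
    h2 _ (by omega)
  set u : W.H X →ₗ[W.K] W.H X := coe W X h (P.dim - 1) ∘ₗ R ∘ₗ inc W X h 0 with hu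
  have huq : QOp W X X (-(P.dim : ℤ)) u :=
    ((qop_coe hP (Nat.sub_le _ _)).comp (hRq.comp (qop_inc hP 0))).cast (by omega)
  set e : W.K := (-1 : W.K) ^ P.dim with he
  have hsq : e * e = 1 := by
    rw [he, ← pow_add, ← two_mul, pow_mul]; simp
  have hne : ((P.dim : W.K) + 1) ≠ 0 := Nat.cast_add_one_ne_zero (R := W.K) P.dim
  -- the operator
  refine statementA_of_left hHL hmn
    (T := (-e * ((P.dim : W.K) + 2)) • u - ((P.dim : W.K) + 1) • (u ∘ₗ
      LinearMap.mulLeft W.K (W.cl X D ^ P.dim) ∘ₗ u)) ?_ ?_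
  · refine qop_sub ?_ ?_
    · have := (huq.smul (-((-1) ^ P.dim) * ((P.dim : ℚ) + 2)))
      have h3 : ((-((-1) ^ P.dim) * ((P.dim : ℚ) + 2) : ℚ) : W.K) = -e * ((P.dim : W.K) + 2) := by
        rw [he]; push_cast; ring
      rwa [h3] at this
    · have := (huq.comp ((qop_mul_pow hD P.dim).comp huq)).smul ((P.dim : ℚ) + 1)
      have h3 : (((P.dim : ℚ) + 1 : ℚ) : W.K) = (P.dim : W.K) + 1 := by push_cast; ring
      rw [h3] at this
      exact this.cast (by ring)
  · intro a ha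
    obtain ⟨c', c'', rfl, hc', hc0, hc''⟩ := prim_decomp hD hHL hmn ha
    have k1 : u (W.cl X D ^ P.dim * c') = (-e / ((P.dim : W.K) + 1)) • c' :=
      split_prim hP hD hm hmn h1' h2' hc' hc0
    have k2 : u (W.cl X D ^ P.dim * c'') = (-e) • c'' := by
      rcases hc'' with rfl | ⟨j, hj, b, hb, rfl⟩
      · rw [mul_zero, map_zero, smul_zero]
      · exact split_img hP hD hm h2' hj hb
    simp only [LinearMap.sub_apply, LinearMap.smul_apply, LinearMap.comp_apply,
      LinearMap.mulLeft_apply, mul_add, map_add, k1, k2, map_smul]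
    match_scalars
    · field_simp
      linear_combination ((P.dim : W.K) + 1) * hsq
    · linear_combination hsq

end Pool.Agent.TH720.LB
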