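import Pool.Agent.TH720.LB.Defs

/-!
# The cohomology of the product with a projective space
-/

open CategoryTheory AlgebraicGeometry Finset

universe u v

namespace Pool.Agent.TH720.LB

open Pool.Agent.H914 Pool.Agent.W534 Pool.Agent.W537 VarClass Obj WeilCohomology

variable {k : Type u} [Field k] {𝒱 : VarClass k} {ops : CycleOps 𝒱}
  {W : WeilCohomology.{u, v} ops} {X Y Z P : 𝒱.Obj} {D : X.Cycles} {h : P.Cycles}

lemma pow_mem' {c : W.H X} (hc : c ∈ W.gr X 2) (j : ℕ) : c ^ j ∈ W.gr X (2 * j) := by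
  induction j with
  | zero => simpa using W.one_mem X
  | succ j ih =>
    rw [pow_succ]
    exact W.mul_mem ih hc

lemma cl_div {D : X.Cycles} (hD : X.IsCyc 1 D) : W.cl X D ∈ W.gr X 2 := W.cl_mem hD

lemma comm_even {c : W.H X} {p : ℕ} (hc : c ∈ W.gr X (2 * p)) (a : W.H X) : c * a = a * c :=
  W.even_comm hc a

/-- an operator of degree `d` on a homogeneous element -/
lemma qop_mem {d : ℤ} {φ : W.H X →ₗ[W.K] W.H Y} (hφ : QOp W X Y d φ) {i j : ℕ} {a : W.H X}
    (ha : a ∈ W.gr X i) (hij : (j : ℤ) = i + 2 * d) : φ a ∈ W.gr Y j := by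
  have h := KOp.isHom hφ.kop i a (by rw [grZ_natCast]; exact ha)
  rwa [← hij, grZ_natCast] at h

lemma qop_mem_neg {d : ℤ} {φ : W.H X →ₗ[W.K] W.H Y} (hφ : QOp W X Y d φ) {i : ℕ} {a : W.H X}
    (ha : a ∈ W.gr X i) (hij : (i : ℤ) + 2 * d < 0) : φ a = 0 := by
  have h := KOp.isHom hφ.kop i a (by rw [grZ_natCast]; exact ha)
  rw [grZ_of_neg hij] at h
  exact (Submodule.mem_bot _).1 h

lemma qop_mul {z : X.Cycles} (hz : X.IsCyc 1 z) : QOp W X X 1 (LinearMap.mulLeft W.K (W.cl X z)) :=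
  rop_iff.1 (rop_mulLeft hz)

lemma qop_id : QOp W X X 0 (LinearMap.id) :=
  rop_iff.1 (rop_opAlg.one)

lemma qop_mul_pow {z : X.Cycles} (hz : X.IsCyc 1 z) (j : ℕ) :
    QOp W X X j (LinearMap.mulLeft W.K (W.cl X z ^ j)) := by
  induction j with
  | zero =>
    rw [pow_zero, LinearMap.mulLeft_one]
    exact qop_id.cast (by simp)
  | succ j ih =>
    rw [pow_succ, LinearMap.mulLeft_mul]
    exact (ih.comp (qop_mul hz)).cast (by push_cast; ring)

lemma qop_neg {d : ℤ} {φ : W.H X →ₗ[W.K] W.H Y} (hφ : QOp W X Y d φ) : QOp W X Y d (-φ) := by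
  have h1 := hφ.smul (-1)
  have h2 : (((-1 : ℚ) : W.K)) • φ = -φ := by
    rw [Rat.cast_neg, Rat.cast_one]
    exact neg_one_smul W.K φ
  rwa [h2] at h1

lemma qop_sub {d : ℤ} {φ ψ : W.H X →ₗ[W.K] W.H Y} (hφ : QOp W X Y d φ) (hψ : QOp W X Y d ψ) :
    QOp W X Y d (φ - ψ) := by
  rw [sub_eq_add_neg]
  exact hφ.add (qop_neg hψ)

/-- The inclusion `x ↦ x t ^ a`. -/
noncomputable def inc (W : WeilCohomology.{u, v} ops) (X : 𝒱.Obj) {P : 𝒱.Obj} (h : P.Cycles)
    (a : ℕ) : W.H X →ₗ[W.K] W.H (X.prod P) :=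
  LinearMap.mulLeft W.K (W.map (snd X P) (W.cl P h ^ a)) ∘ₗ (W.map (fst X P)).toLinearMap

lemma inc_apply (a : ℕ) (x : W.H X) :
    inc W X h a x = W.map (snd X P) (W.cl P h ^ a) * W.map (fst X P) x := rfl

/-- The coefficient of `t ^ a`. -/
noncomputable def coe (W : WeilCohomology.{u, v} ops) (X : 𝒱.Obj) {P : 𝒱.Obj} (h : P.Cycles)
    (a : ℕ) : W.H (X.prod P) →ₗ[W.K] W.H X :=
  W.push (fst X P) ∘ₗ LinearMap.mulLeft W.K (W.map (snd X P) (W.cl P h ^ (P.dim - a)))

lemma coe_apply (a : ℕ) (y : W.H (X.prod P)) :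
    coe W X h a y = W.push (fst X P) (W.map (snd X P) (W.cl P h ^ (P.dim - a)) * y) := rfl

lemma push_fst_mul {b : W.H P} {r : ℕ} (hb : b ∈ W.gr P (2 * r)) (x : W.H X) :
    W.push (fst X P) (W.map (snd X P) b * W.map (fst X P) x) = W.tr P b • x := by
  apply W.tr_ext
  intro c
  rw [W.tr_push, mul_assoc, ← map_mul, W.even_comm (W.map_mem _ hb), W.tr_prod, smul_mul_assoc,
    map_smul, smul_eq_mul, mul_comm]

lemma mul_inc (hD : X.IsCyc 1 D) (a : ℕ) (x : W.H X) :
    W.cl _ (sumDiv ops D h) * inc W X h a x =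
      inc W X h a (W.cl X D * x) + inc W X h (a + 1) x := by
  rw [sumDiv, map_add, W.cl_pull, W.cl_pull, add_mul, inc_apply, inc_apply, inc_apply,
    ← mul_assoc, W.even_comm (W.map_mem (fst X P) (W.cl_mem hD)), mul_assoc,
    ← map_mul (W.map (fst X P)), ← mul_assoc (W.map (snd X P) (W.cl P h)),
    ← map_mul (W.map (snd X P)), pow_succ']

section

variable (hP : IsProjLike W P h)
include hP

lemma t_mem (j : ℕ) : W.cl P h ^ j ∈ W.gr P (2 * j) := pow_mem' (cl_div hP.div) j

lemma t_zero {j : ℕ} (hj : P.dim < j) : W.cl P h ^ j = 0 := by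
  have := t_mem hP j
  rw [W.gr_eq_bot P _ (by omega)] at this
  exact (Submodule.mem_bot _).1 this

lemma inc_zero {j : ℕ} (hj : P.dim < j) : inc W X h j = 0 := by
  apply LinearMap.ext
  intro x
  rw [inc_apply, t_zero hP hj, map_zero, zero_mul, LinearMap.zero_apply]

lemma coe_inc {a b : ℕ} (ha : a ≤ P.dim) (x : W.H X) :
    coe W X h a (inc W X h b x) = if a = b then x else 0 := by
  rw [coe_apply, inc_apply, ← mul_assoc, ← map_mul, ← pow_add,
    push_fst_mul (t_mem hP (P.dim - a + b))]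
  split_ifs with hab
  · subst hab
    rw [Nat.sub_add_cancel ha, hP.deg, one_smul]
  · rw [W.tr_eq_zero (t_mem hP (P.dim - a + b)) (by omega), zero_smul]

/-- Every class is a combination of classes `x t ^ a`. -/
lemma decomp (y : W.H (X.prod P)) :
    ∑ a ∈ range (P.dim + 1), inc W X h a (coe W X h a y) = y := by
  refine W.kunneth_induction (p := fun y =>
    ∑ a ∈ range (P.dim + 1), inc W X h a (coe W X h a y) = y) ?_ ?_ y
  · intro y y' hy hy'
    simp only [map_add, Finset.sum_add_distrib, hy, hy']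
  · intro i j x _ b hbj
    clear hbj
    have hb := hP.span b
    induction hb using Submodule.span_induction with
    | mem b hb =>
      obtain ⟨l, rfl⟩ := hb
      rw [← W.even_comm (W.map_mem (snd X P) (t_mem hP l)), ← inc_apply]
      by_cases hl : l ≤ P.dim
      · rw [Finset.sum_eq_single_of_mem l (by simp; omega)]
        · rw [coe_inc hP hl, if_pos rfl]
        · intro a ha hal
          rw [coe_inc hP (by simp at ha; omega), if_neg hal, map_zero]
      · rw [inc_zero hP (by omega)]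
        simp
    | zero => simp
    | add b b' _ _ hb hb' =>
      simp only [map_add, mul_add, Finset.sum_add_distrib, hb, hb']
    | smul c b _ hb =>
      simp only [map_smul, mul_smul_comm, ← Finset.smul_sum, hb]

/-- Induction on the classes of the product. -/
lemma prod_induction {p : W.H (X.prod P) → Prop} (hadd : ∀ y y', p y → p y' → p (y + y'))
    (hinc : ∀ a, a ≤ P.dim → ∀ x, p (inc W X h a x)) (y : W.H (X.prod P)) : p y := by
  have h0 : p 0 := by
    have := hinc 0 (Nat.zero_le _) 0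
    rwa [map_zero] at this
  rw [← decomp hP y]
  refine Finset.sum_induction _ p hadd h0 fun a ha => hinc a ?_ _
  simp at ha
  omega

lemma qop_inc (a : ℕ) : QOp W X (X.prod P) a (inc W X h a) := by
  have h1 := qop_mul_pow (W := W) (ops.pull_mem (snd X P) hP.div) a
  rw [W.cl_pull, ← map_pow] at h1
  exact (h1.comp (qop_pull (fst X P))).cast (by ring)

lemma qop_coe {a : ℕ} (ha : a ≤ P.dim) : QOp W (X.prod P) X (-a) (coe W X h a) := by
  have h1 := qop_mul_pow (W := W) (ops.pull_mem (snd X P) hP.div) (P.dim - a)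
  rw [W.cl_pull, ← map_pow] at h1
  exact ((qop_push (fst X P)).comp h1).cast (by
    rw [dim_prod, Nat.cast_sub ha]
    push_cast
    ring)

end

lemma isCyc_sumDiv (hD : X.IsCyc 1 D) (hh : P.IsCyc 1 h) :
    (X.prod P).IsCyc 1 (sumDiv ops D h) :=
  SmVar.IsCyc.add (ops.pull_mem _ hD) (ops.pull_mem _ hh)

end Pool.Agent.TH720.LB
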